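import Mathlib

set_option autoImplicit false

namespace Pool.Agent.Results.MP_4e92f2_gt.Counter

open Set Topology Filter

def A : Set EReal := {⊥, 0, ⊤}

def X₀ : Type := Quot fun x y : EReal => x ∈ A ∧ y ∈ A

def q (x : EReal) : X₀ := Quot.mk _ x

@[reducible] def τ : TopologicalSpace X₀ where
  IsOpen U := IsOpen (q ⁻¹' U) ∧ (q 0 ∈ U → Dense (q ⁻¹' U))
  isOpen_univ := ⟨isOpen_univ, fun _ => dense_univ⟩
  isOpen_inter _ _ h1 h2 :=
    ⟨h1.1.inter h2.1, fun h => (h1.2 h.1).inter_of_isOpen_left (h2.2 h.2) h1.1⟩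
  isOpen_sUnion S h := ⟨by rw [preimage_sUnion]; exact isOpen_biUnion fun U hU => (h U hU).1,
    fun ⟨U, h1, h2⟩ => ((h U h1).2 h2).mono (preimage_mono (subset_sUnion_of_mem h1))⟩

def US {X : Type} (t : TopologicalSpace X) : Prop :=
  ∀ (y : ℕ → X) (a b : X), Tendsto y atTop (@nhds X t a) → Tendsto y atTop (@nhds X t b) → a = b

lemma q_eq {x y : EReal} : q x = q y ↔ x = y ∨ x ∈ A ∧ y ∈ A := by
  refine ⟨fun h => ?_, fun h => h.elim (congrArg q) fun h => Quot.sound h⟩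
  have h1 := Quot.eqvGen_exact h
  clear h
  induction h1 with
  | rel x y h => exact Or.inr h
  | refl x => exact Or.inl rfl
  | symm x y h ih => exact ih.imp Eq.symm And.symm
  | trans x y z h1 h2 ih1 ih2 => grind

lemma pre {S : Set EReal} (h : Disjoint S A) : q ⁻¹' (q '' S) = S := by
  refine (subset_preimage_image _ _).antisymm' ?_
  rintro x ⟨y, h1, h2⟩
  rcases q_eq.1 h2 with rfl | h3
  · exact h1
  · exact absurd h3.1 (disjoint_left.1 h h1)

lemma A_fin : A.Finite := by simp [A]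

lemma half {α : Type} (𝒰 : Ultrafilter α) (h : (𝒰 : Filter α) ≤ cofinite) (y : ℕ → α) :
    ∃ S : Set ℕ, S.Infinite ∧ (y '' S)ᶜ ∈ 𝒰 := by
  by_cases h1 : (range y).Finite
  · exact ⟨univ, infinite_univ, h (by simpa using h1)⟩
  let e := Set.Infinite.natEmbedding _ h1
  have h2 : ∀ k : ℕ → ℕ, k.Injective → (y ⁻¹' range fun n => (e (k n)).1).Infinite := fun k hk =>
    (infinite_range_of_injective (Subtype.val_injective.comp (e.injective.comp hk))).preimage
      (range_subset_iff.2 fun n => (e _).2)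
  rcases 𝒰.mem_or_compl_mem (range fun n => (e (2 * n)).1) with h3 | h3
  · refine ⟨_, h2 (fun n => 2 * n + 1) fun m n h => by simpa using h, mem_of_superset h3 ?_⟩
    rintro _ ⟨n, rfl⟩ ⟨k, ⟨m, h4⟩, h5⟩
    have := e.injective (Subtype.ext (h4.trans h5))
    omega
  · exact ⟨_, h2 (fun n => 2 * n) fun m n h => by simpa using h,
      mem_of_superset h3 (compl_subset_compl.2 (image_preimage_subset _ _))⟩

theorem result : ∃ τ' : TopologicalSpace X₀, (∀ U, IsOpen[τ'] U → IsOpen[τ] U) ∧ τ' ≠ τ ∧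
    @T1Space X₀ τ' ∧ US τ' := by
  have c0 : ∀ C : Set EReal, C.Countable → IsClosed C → Disjoint C A →
      IsOpen[τ] (q '' C)ᶜ ∧ q 0 ∈ (q '' C)ᶜ := by
    intro C h1 h2 h3
    refine ⟨⟨?_, fun _ => ?_⟩, fun h => disjoint_left.1 h3 ((pre h3).le (show (0 : EReal) ∈ q ⁻¹' _ from h)) (by simp [A])⟩
    · rw [preimage_compl, pre h3]
      exact h2.isOpen_compl
    · rw [preimage_compl, pre h3, ← biUnion_of_singleton C, compl_iUnion₂]
      exact dense_biInter_of_isOpen (fun _ _ => isOpen_compl_singleton) h1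
        fun x _ => dense_compl_singleton x
  obtain ⟨x, x1, x2, x3⟩ := exists_seq_strictAnti_tendsto' (show (1 : EReal) < ⊤ from EReal.coe_lt_top 1)
  let 𝒰 : Ultrafilter EReal := (hyperfilter ℕ).map x
  have h𝒰 : (𝒰 : Filter EReal) ≤ cofinite :=
    (map_mono (hyperfilter_le_cofinite)).trans x1.injective.tendsto_cofinite
  let τ' : TopologicalSpace X₀ :=
    { IsOpen U := IsOpen[τ] U ∧ (q 0 ∈ U → q ⁻¹' U ∈ 𝒰)
      isOpen_univ := ⟨τ.isOpen_univ, fun _ => univ_mem⟩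
      isOpen_inter _ _ h1 h2 :=
        ⟨τ.isOpen_inter _ _ h1.1 h2.1, fun h => inter_mem (h1.2 h.1) (h2.2 h.2)⟩
      isOpen_sUnion S h := ⟨τ.isOpen_sUnion _ fun U hU => (h U hU).1, fun ⟨U, h1, h2⟩ =>
        mem_of_superset ((h U h1).2 h2) (preimage_mono (subset_sUnion_of_mem h1))⟩ }
  have c1 : ∀ b, b ≠ q 0 → ∃ β ∉ A, q β = b := by
    rintro ⟨β⟩ h
    exact ⟨β, fun h1 => h (Quot.sound ⟨h1, by simp [A]⟩), rfl⟩
  have c2 : ∀ (z : ℕ → EReal) β, β ∉ A → Tendsto (q ∘ z) atTop (@nhds _ τ' (q β)) →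
      Tendsto z atTop (𝓝 β) := by
    intro z β h1 h2
    refine tendsto_nhds.2 fun O h3 h4 => ?_
    have h5 : q 0 ∉ q '' (O \ A) := fun h =>
      (pre disjoint_sdiff_left ▸ h : (0 : EReal) ∈ O \ A).2 (by simp [A])
    have h6 : IsOpen[τ'] (q '' (O \ A)) := ⟨⟨by
      rw [pre disjoint_sdiff_left]; exact h3.sdiff A_fin.isClosed, fun h => absurd h h5⟩,
      fun h => absurd h h5⟩
    refine mem_of_superset (h2 (@IsOpen.mem_nhds _ τ' _ _ h6 ⟨β, ⟨h4, h1⟩, rfl⟩)) fun n hn => ?_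
    exact (pre disjoint_sdiff_left ▸ hn : z n ∈ O \ A).1
  have c3 : ∀ (z : ℕ → EReal) β, β ∉ A → Tendsto z atTop (𝓝 β) →
      ¬ Tendsto (q ∘ z) atTop (@nhds _ τ' (q 0)) := by
    intro z β h1 h2 h3
    obtain ⟨N, hN⟩ := eventually_atTop.1 (h2 (A_fin.isClosed.isOpen_compl.mem_nhds h1))
    obtain ⟨S, h4, h5⟩ := half 𝒰 h𝒰 fun n => z (n + N)
    have h6 : Tendsto (fun n => Nat.nth (· ∈ S) n + N) atTop atTop :=
      (tendsto_add_atTop_nat N).comp (Nat.nth_strictMono h4).tendsto_atTop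
    have h7 : Disjoint (insert β (range fun n => z (Nat.nth (· ∈ S) n + N))) A :=
      disjoint_left.2 (forall_mem_insert.2 ⟨h1, forall_mem_range.2 fun n => hN _ (Nat.le_add_left _ _)⟩)
    have h8 := c0 _ ((countable_range _).insert β) (h2.comp h6).isCompact_insert_range.isClosed h7
    obtain ⟨n, hn⟩ := (h3.comp h6).eventually (@IsOpen.mem_nhds _ τ' _ _ ⟨h8.1, fun _ => by
      refine mem_of_superset ?_ (compl_subset_compl.2 (pre h7).le)
      refine mem_of_superset (inter_mem h5 (h𝒰 (finite_singleton β).compl_mem_cofinite)) ?_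
      rintro w ⟨h9, h10⟩ (h | ⟨n, rfl⟩)
      · exact h10 h
      · exact h9 ⟨_, Nat.nth_mem_of_infinite h4 n, rfl⟩⟩ h8.2) |>.exists
    exact hn ⟨_, Or.inr ⟨n, rfl⟩, rfl⟩
  refine ⟨τ', fun U h => h.1, fun h => ?_, @T1Space.mk _ τ' fun b => ?_, fun y a b h1 h2 => ?_⟩
  · have h1 : Disjoint (insert 1 (range x)) A := by
      refine disjoint_left.2 fun w hw hA => ?_
      have : w ∈ Ico 1 ⊤ := hw.elim (fun h => by rw [h]; exact ⟨le_rfl, EReal.coe_lt_top 1⟩)
        fun ⟨n, hn⟩ => hn ▸ Ioo_subset_Ico_self (x2 n)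
      rcases hA with rfl | rfl | rfl
      · exact absurd this.1 (EReal.bot_lt_coe 1).not_ge
      · exact absurd this.1 zero_lt_one.not_ge
      · exact this.2.false
    have h2 := c0 _ ((countable_range _).insert 1) x3.isCompact_insert_range.isClosed h1
    have h3 : IsOpen[τ'] _ := h ▸ h2.1
    have h4 := h3.2 h2.2
    rw [preimage_compl, pre h1] at h4
    exact Ultrafilter.compl_mem_iff_notMem.1 h4
      (mem_of_superset range_mem_map (subset_insert _ _))
  · refine @IsClosed.mk _ τ' _ ?_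
    by_cases h : b = q 0
    · refine ⟨⟨?_, fun h1 => absurd h.symm h1⟩, fun h1 => absurd h.symm h1⟩
      convert A_fin.isClosed.isOpen_compl
      ext w
      simp +contextual [h, q_eq, A]
    · obtain ⟨β, h1, rfl⟩ := c1 b h
      have h2 := disjoint_singleton_left.2 h1
      rw [← image_singleton]
      refine ⟨(c0 _ (countable_singleton β) isClosed_singleton h2).1, fun _ => ?_⟩
      rw [preimage_compl, pre h2]
      exact h𝒰 (finite_singleton β).compl_mem_cofinite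
  · obtain ⟨z, rfl⟩ : ∃ z : ℕ → EReal, q ∘ z = y :=
      ⟨fun n => (y n).out, funext fun n => Quot.out_eq _⟩
    by_cases ha : a = q 0 <;> by_cases hb : b = q 0
    · exact ha.trans hb.symm
    · obtain ⟨β, h3, rfl⟩ := c1 b hb
      exact absurd (ha ▸ h1) (c3 z β h3 (c2 z β h3 h2))
    · obtain ⟨β, h3, rfl⟩ := c1 a ha
      exact absurd (hb ▸ h2) (c3 z β h3 (c2 z β h3 h1))
    · obtain ⟨α, h3, rfl⟩ := c1 a ha
      obtain ⟨β, h4, rfl⟩ := c1 b hb
      exact congrArg q (tendsto_nhds_unique (c2 z α h3 h1) (c2 z β h4 h2))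

end Pool.Agent.Results.MP_4e92f2_gt.Counter
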